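import Pool.Agent.helper3.GDS.Defs

/-!
# The lower bound `n² ≤ 961 γ(n)³`
-/

set_option autoImplicit false

namespace Pool.Agent.helper3.GDS

open Finset

/-- the primitive direction of `R - Q` -/
noncomputable def dir (Q R : ℤ × ℤ) : ℤ × ℤ :=
  ((R.1 - Q.1) / ((R.1 - Q.1).gcd (R.2 - Q.2) : ℕ), (R.2 - Q.2) / ((R.1 - Q.1).gcd (R.2 - Q.2) : ℕ))

theorem dir_spec {P Q R : ℤ × ℤ} (hQR : Q ≠ R) (h : Coll P Q R) :
    ¬ ((dir Q R).1 = 0 ∧ (dir Q R).2 = 0) ∧
      ∃ s : ℤ, P.1 = Q.1 + s * (dir Q R).1 ∧ P.2 = Q.2 + s * (dir Q R).2 := by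
  set u := R.1 - Q.1 with hu
  set v := R.2 - Q.2 with hv
  have huv : ¬ (u = 0 ∧ v = 0) := by
    rintro ⟨h1, h2⟩
    exact hQR (Prod.ext (by omega) (by omega))
  have hg : 0 < u.gcd v := by
    rcases Nat.eq_zero_or_pos (u.gcd v) with h0 | h0
    · exact absurd (Int.gcd_eq_zero_iff.1 h0) huv
    · exact h0
  have hcop : IsCoprime (dir Q R).1 (dir Q R).2 := by
    rw [Int.isCoprime_iff_gcd_eq_one]
    exact Int.gcd_ediv_gcd_ediv_gcd hg
  set a := (dir Q R).1 with ha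
  set b := (dir Q R).2 with hb
  have hua : u = (u.gcd v : ℕ) * a := by
    rw [ha]
    exact (Int.mul_ediv_cancel' (Int.gcd_dvd_left ..)).symm
  have hvb : v = (u.gcd v : ℕ) * b := by
    rw [hb]
    exact (Int.mul_ediv_cancel' (Int.gcd_dvd_right ..)).symm
  constructor
  · rintro ⟨h1, h2⟩
    apply huv
    rw [h1, mul_zero] at hua
    rw [h2, mul_zero] at hvb
    exact ⟨hua, hvb⟩
  · unfold Coll at h
    have h1 : u * (P.2 - Q.2) = v * (P.1 - Q.1) := by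
      have e1 : R.1 = Q.1 + u := by omega
      have e2 : R.2 = Q.2 + v := by omega
      rw [e1, e2] at h
      linarith
    have h2 : a * (P.2 - Q.2) = b * (P.1 - Q.1) := by
      have hg' : ((u.gcd v : ℕ) : ℤ) ≠ 0 := by exact_mod_cast hg.ne'
      apply mul_left_cancel₀ hg'
      rw [← mul_assoc, ← mul_assoc, ← hua, ← hvb]
      exact h1
    obtain ⟨α, β, hαβ⟩ := hcop
    refine ⟨α * (P.1 - Q.1) + β * (P.2 - Q.2), ?_, ?_⟩
    · have e : (α * (P.1 - Q.1) + β * (P.2 - Q.2)) * a = (α * a + β * b) * (P.1 - Q.1) := by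
        calc (α * (P.1 - Q.1) + β * (P.2 - Q.2)) * a
            = α * a * (P.1 - Q.1) + β * (a * (P.2 - Q.2)) := by ring
          _ = _ := by rw [h2]; ring
      rw [e, hαβ]
      ring
    · have e : (α * (P.1 - Q.1) + β * (P.2 - Q.2)) * b = (α * a + β * b) * (P.2 - Q.2) := by
        calc (α * (P.1 - Q.1) + β * (P.2 - Q.2)) * b
            = α * (b * (P.1 - Q.1)) + β * b * (P.2 - Q.2) := by ring
          _ = _ := by rw [← h2]; ring
      rw [e, hαβ]
      ring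

/-- points on lines of small height -/
noncomputable def T1 (n H : ℕ) (S : Finset (ℤ × ℤ)) : Finset (ℤ × ℤ) :=
  (Icc 1 H).biUnion fun h : ℕ =>
    (S ×ˢ (Icc (-(h : ℤ)) h ×ˢ Icc (-((n / h : ℕ) : ℤ)) ((n / h : ℕ) : ℤ))).image
      (fun q : (ℤ × ℤ) × (ℤ × ℤ) => (q.1.1 + q.2.2 * h, q.1.2 + q.2.2 * q.2.1)) ∪
    (S ×ˢ (Icc (-(h : ℤ)) h ×ˢ Icc (-((n / h : ℕ) : ℤ)) ((n / h : ℕ) : ℤ))).image
      (fun q : (ℤ × ℤ) × (ℤ × ℤ) => (q.1.1 + q.2.2 * q.2.1, q.1.2 + q.2.2 * h))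

/-- points on lines of large height -/
noncomputable def T2 (n H : ℕ) (S : Finset (ℤ × ℤ)) : Finset (ℤ × ℤ) :=
  ((S ×ˢ S) ×ˢ Icc (-((n / H : ℕ) : ℤ)) ((n / H : ℕ) : ℤ)).image
    (fun q : ((ℤ × ℤ) × (ℤ × ℤ)) × ℤ => (q.1.1.1 + q.2 * (dir q.1.1 q.1.2).1, q.1.1.2 + q.2 * (dir q.1.1 q.1.2).2))

theorem card_Icc_sym (m : ℕ) : (Icc (-(m : ℤ)) (m : ℤ)).card = 2 * m + 1 := by
  rw [Int.card_Icc]
  omega

theorem card_T1 {n H : ℕ} (hH : H ≤ n) (S : Finset (ℤ × ℤ)) : (T1 n H S).card ≤ 18 * (S.card * n * H) := by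
  unfold T1
  refine card_biUnion_le.trans ?_
  have h1 : ∀ h ∈ Icc 1 H, ((S ×ˢ (Icc (-(h : ℤ)) h ×ˢ Icc (-((n / h : ℕ) : ℤ)) ((n / h : ℕ) : ℤ))).image
      (fun q : (ℤ × ℤ) × (ℤ × ℤ) => (q.1.1 + q.2.2 * h, q.1.2 + q.2.2 * q.2.1)) ∪
    (S ×ˢ (Icc (-(h : ℤ)) h ×ˢ Icc (-((n / h : ℕ) : ℤ)) ((n / h : ℕ) : ℤ))).image
      (fun q : (ℤ × ℤ) × (ℤ × ℤ) => (q.1.1 + q.2.2 * q.2.1, q.1.2 + q.2.2 * h))).card ≤
      18 * (S.card * n) := by
    intro h hh
    rw [mem_Icc] at hh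
    have hn : 1 ≤ n / h := (Nat.one_le_div_iff (by omega)).2 (hh.2.trans hH)
    have hnh : h * (n / h) ≤ n := Nat.mul_div_le n h
    have hc : (S ×ˢ (Icc (-(h : ℤ)) h ×ˢ Icc (-((n / h : ℕ) : ℤ)) ((n / h : ℕ) : ℤ))).card ≤
        9 * (S.card * n) := by
      rw [card_product, card_product, card_Icc_sym, card_Icc_sym]
      calc S.card * ((2 * h + 1) * (2 * (n / h) + 1)) ≤ S.card * ((3 * h) * (3 * (n / h))) :=
            Nat.mul_le_mul_left _ (Nat.mul_le_mul (by omega) (by omega))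
        _ = 9 * (S.card * (h * (n / h))) := by ring
        _ ≤ 9 * (S.card * n) := Nat.mul_le_mul_left _ (Nat.mul_le_mul_left _ hnh)
    refine (card_union_le _ _).trans ?_
    have h2 := card_image_le (s := S ×ˢ (Icc (-(h : ℤ)) h ×ˢ Icc (-((n / h : ℕ) : ℤ)) ((n / h : ℕ) : ℤ)))
      (f := fun q : (ℤ × ℤ) × (ℤ × ℤ) => (q.1.1 + q.2.2 * h, q.1.2 + q.2.2 * q.2.1))
    have h3 := card_image_le (s := S ×ˢ (Icc (-(h : ℤ)) h ×ˢ Icc (-((n / h : ℕ) : ℤ)) ((n / h : ℕ) : ℤ)))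
      (f := fun q : (ℤ × ℤ) × (ℤ × ℤ) => (q.1.1 + q.2.2 * q.2.1, q.1.2 + q.2.2 * h))
    omega
  refine (sum_le_sum h1).trans ?_
  rw [sum_const, Nat.card_Icc, smul_eq_mul]
  apply le_of_eq
  rw [Nat.add_sub_cancel]
  ring

theorem card_T2 {n H : ℕ} (hH0 : 1 ≤ H) (hH : H ≤ n) {S : Finset (ℤ × ℤ)} (hS : S.card ≤ 4 * (H * H)) :
    (T2 n H S).card ≤ 12 * (S.card * n * H) := by
  unfold T2
  refine card_image_le.trans ?_
  rw [card_product, card_product, card_Icc_sym]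
  have hn : 1 ≤ n / H := (Nat.one_le_div_iff (by omega)).2 hH
  have hnh : H * (n / H) ≤ n := Nat.mul_div_le n H
  calc S.card * S.card * (2 * (n / H) + 1) ≤ S.card * (4 * (H * H)) * (3 * (n / H)) :=
        Nat.mul_le_mul (Nat.mul_le_mul_left _ hS) (by omega)
    _ = 12 * (S.card * (H * (n / H)) * H) := by ring
    _ ≤ 12 * (S.card * n * H) := Nat.mul_le_mul_left _ (Nat.mul_le_mul_right _ (Nat.mul_le_mul_left _ hnh))

theorem grid_subset {n H : ℕ} (hH0 : 1 ≤ H) {S : Finset (ℤ × ℤ)} (hS : IsDom n S) :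
    Grid n ⊆ S ∪ (T1 n H S ∪ T2 n H S) := by
  intro P hP
  by_cases hPS : P ∈ S
  · exact mem_union_left _ hPS
  apply mem_union_right
  obtain ⟨Q, hQ, R, hR, hQR, hcol⟩ := hS.2 P hP hPS
  obtain ⟨hab, s, h1, h2⟩ := dir_spec hQR hcol
  have hQg := mem_Grid.1 (hS.1 hQ)
  have hPg := mem_Grid.1 hP
  set a := (dir Q R).1 with ha
  set b := (dir Q R).2 with hb
  have k1 : |s| * |a| ≤ n := by
    rw [← abs_mul]
    have : s * a = P.1 - Q.1 := by linarith
    rw [this, abs_le]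
    constructor <;> linarith [hQg.1.1, hQg.1.2, hPg.1.1, hPg.1.2]
  have k2 : |s| * |b| ≤ n := by
    rw [← abs_mul]
    have : s * b = P.2 - Q.2 := by linarith
    rw [this, abs_le]
    constructor <;> linarith [hQg.2.1, hQg.2.2, hPg.2.1, hPg.2.2]
  -- the bound for the multiple
  have kdiv : ∀ c : ℕ, 1 ≤ c → ∀ e : ℤ, (c : ℤ) ≤ |e| → |s| * |e| ≤ n → |s| ≤ ((n / c : ℕ) : ℤ) := by
    intro c hc e hce hse
    have h3 : |s| * c ≤ n := (mul_le_mul_of_nonneg_left hce (abs_nonneg s)).trans hse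
    rw [Int.natCast_div]
    rw [Int.le_ediv_iff_mul_le (by omega)]
    exact h3
  -- small or large height
  by_cases hbig : (H : ℤ) ≤ |a| ∨ (H : ℤ) ≤ |b|
  · apply mem_union_right
    have hs : |s| ≤ ((n / H : ℕ) : ℤ) := by
      rcases hbig with h | h
      · exact kdiv H hH0 a h k1
      · exact kdiv H hH0 b h k2
    unfold T2
    refine mem_image.2 ⟨((Q, R), s), mem_product.2 ⟨mem_product.2 ⟨hQ, hR⟩, ?_⟩, ?_⟩
    · rw [mem_Icc]
      exact abs_le.1 hs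
    · exact Prod.ext h1.symm h2.symm
  · apply mem_union_left
    rw [not_or, not_le, not_le] at hbig
    unfold T1
    rw [mem_biUnion]
    rcases le_total |b| |a| with hba | hba
    · have ha0 : a ≠ 0 := by
        intro h0
        rw [h0, abs_zero] at hba
        exact hab ⟨h0, abs_eq_zero.1 (le_antisymm hba (abs_nonneg b))⟩
      have hapos : 0 < |a| := abs_pos.2 ha0
      obtain ⟨h, hh⟩ : ∃ h : ℕ, (h : ℤ) = |a| := ⟨a.natAbs, Int.natCast_natAbs a⟩
      have hh1 : 1 ≤ h := by omega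
      have hs := kdiv h hh1 a hh.le k1
      refine ⟨h, mem_Icc.2 ⟨hh1, by omega⟩, mem_union_left _ ?_⟩
      rcases le_or_gt 0 a with hpos | hneg
      · refine mem_image.2 ⟨(Q, (b, s)), mem_product.2 ⟨hQ, mem_product.2 ⟨?_, ?_⟩⟩, ?_⟩
        · rw [mem_Icc]
          exact abs_le.1 (by rw [hh]; exact hba)
        · rw [mem_Icc]
          exact abs_le.1 hs
        · rw [abs_of_nonneg hpos] at hh
          refine Prod.ext ?_ h2.symm
          show Q.1 + s * h = P.1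
          rw [hh, h1]
      · refine mem_image.2 ⟨(Q, (-b, -s)), mem_product.2 ⟨hQ, mem_product.2 ⟨?_, ?_⟩⟩, ?_⟩
        · rw [mem_Icc]
          exact abs_le.1 (by rw [abs_neg, hh]; exact hba)
        · rw [mem_Icc]
          exact abs_le.1 (by rw [abs_neg]; exact hs)
        · rw [abs_of_neg hneg] at hh
          refine Prod.ext ?_ ?_
          · show Q.1 + -s * h = P.1
            rw [hh, h1]
            ring
          · show Q.2 + -s * -b = P.2
            rw [h2]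
            ring
    · have hb0 : b ≠ 0 := by
        intro h0
        rw [h0, abs_zero] at hba
        exact hab ⟨abs_eq_zero.1 (le_antisymm hba (abs_nonneg a)), h0⟩
      have hbpos : 0 < |b| := abs_pos.2 hb0
      obtain ⟨h, hh⟩ : ∃ h : ℕ, (h : ℤ) = |b| := ⟨b.natAbs, Int.natCast_natAbs b⟩
      have hh1 : 1 ≤ h := by omega
      have hs := kdiv h hh1 b hh.le k2
      refine ⟨h, mem_Icc.2 ⟨hh1, by omega⟩, mem_union_right _ ?_⟩
      rcases le_or_gt 0 b with hpos | hneg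
      · refine mem_image.2 ⟨(Q, (a, s)), mem_product.2 ⟨hQ, mem_product.2 ⟨?_, ?_⟩⟩, ?_⟩
        · rw [mem_Icc]
          exact abs_le.1 (by rw [hh]; exact hba)
        · rw [mem_Icc]
          exact abs_le.1 hs
        · rw [abs_of_nonneg hpos] at hh
          refine Prod.ext h1.symm ?_
          show Q.2 + s * h = P.2
          rw [hh, h2]
      · refine mem_image.2 ⟨(Q, (-a, -s)), mem_product.2 ⟨hQ, mem_product.2 ⟨?_, ?_⟩⟩, ?_⟩
        · rw [mem_Icc]
          exact abs_le.1 (by rw [abs_neg, hh]; exact hba)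
        · rw [mem_Icc]
          exact abs_le.1 (by rw [abs_neg]; exact hs)
        · rw [abs_of_neg hneg] at hh
          refine Prod.ext ?_ ?_
          · show Q.1 + -s * -a = P.1
            rw [h1]
            ring
          · show Q.2 + -s * h = P.2
            rw [hh, h2]
            ring

/-- **the lower bound** -/
theorem lower {n : ℕ} (hn : 1 ≤ n) {S : Finset (ℤ × ℤ)} (hS : IsDom n S) : n ^ 2 ≤ 961 * S.card ^ 3 := by
  set k := S.card with hk
  have hk1 : 1 ≤ k := by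
    rcases Nat.eq_zero_or_pos k with h0 | h0
    · have hSe : S = ∅ := card_eq_zero.1 (hk ▸ h0)
      have h1 : ((1 : ℤ), (1 : ℤ)) ∈ Grid n := by
        have hn' : (1 : ℤ) ≤ n := by exact_mod_cast hn
        rw [mem_Grid]
        exact ⟨⟨le_refl _, hn'⟩, le_refl _, hn'⟩
      obtain ⟨Q, hQ, -⟩ := hS.2 _ h1 (by rw [hSe]; exact notMem_empty _)
      rw [hSe] at hQ
      exact absurd hQ (notMem_empty _)
    · exact h0
  set H := Nat.sqrt k with hH
  have hH0 : 1 ≤ H := by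
    rw [hH]
    exact Nat.sqrt_pos.2 hk1
  have hHk : H * H ≤ k := Nat.sqrt_le k
  have hkH : k < (H + 1) * (H + 1) := Nat.lt_succ_sqrt k
  have hkH4 : k ≤ 4 * (H * H) := by nlinarith
  have hkn : k ≤ n * n := by
    have := card_le_card hS.1
    rwa [card_Grid] at this
  have hHn : H ≤ n := by
    by_contra hcon
    rw [not_le] at hcon
    have : n * n < H * H := Nat.mul_lt_mul'' hcon hcon
    omega
  have h1 := card_le_card (grid_subset (H := H) hH0 hS)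
  rw [card_Grid] at h1
  have h2 := card_union_le S (T1 n H S ∪ T2 n H S)
  have h3 := card_union_le (T1 n H S) (T2 n H S)
  have h4 := card_T1 hHn S
  have h5 := card_T2 hH0 hHn (S := S) (hk ▸ hkH4)
  rw [← hk] at h2 h4 h5
  have h6 : k ≤ k * n * H := by
    calc k = k * 1 * 1 := by ring
      _ ≤ k * n * H := Nat.mul_le_mul (Nat.mul_le_mul_left _ hn) hH0
  have h7 : n * n ≤ n * (31 * (k * H)) := by
    have e : n * (31 * (k * H)) = 31 * (k * n * H) := by ring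
    rw [e]
    omega
  have h8 : n ≤ 31 * (k * H) := Nat.le_of_mul_le_mul_left h7 hn
  calc n ^ 2 ≤ (31 * (k * H)) ^ 2 := Nat.pow_le_pow_left h8 2
    _ = 961 * (k ^ 2 * (H * H)) := by ring
    _ ≤ 961 * (k ^ 2 * k) := Nat.mul_le_mul_left _ (Nat.mul_le_mul_left _ hHk)
    _ = 961 * k ^ 3 := by ring

theorem gamma_lower {n : ℕ} (hn : 1 ≤ n) : n ^ 2 ≤ 961 * gamma n ^ 3 := by
  obtain ⟨S, hS, hc⟩ := exists_gamma n
  rw [← hc]
  exact lower hn hS

end Pool.Agent.helper3.GDS
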