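import Mathlib

/-!
# Geometric dominating sets of the square grid
-/

set_option autoImplicit false

namespace Pool.Agent.helper3.GDS

/-- The grid `{1, ..., n}²`. -/
noncomputable def Grid (n : ℕ) : Finset (ℤ × ℤ) := Finset.Icc (1 : ℤ) n ×ˢ Finset.Icc (1 : ℤ) n

/-- `P`, `Q`, `R` lie on a common straight line. -/
def Coll (P Q R : ℤ × ℤ) : Prop := (Q.1 - P.1) * (R.2 - P.2) = (R.1 - P.1) * (Q.2 - P.2)

/-- `S` is a geometric dominating set of the `n × n` grid: every point of the grid outside of `S` is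
collinear with some two distinct points of `S`. -/
def IsDom (n : ℕ) (S : Finset (ℤ × ℤ)) : Prop :=
  S ⊆ Grid n ∧ ∀ P ∈ Grid n, P ∉ S → ∃ Q ∈ S, ∃ R ∈ S, Q ≠ R ∧ Coll P Q R

/-- `γ(n)`: the minimum size of a geometric dominating set. -/
noncomputable def gamma (n : ℕ) : ℕ := sInf {k | ∃ S, IsDom n S ∧ S.card = k}

theorem mem_Grid {n : ℕ} {P : ℤ × ℤ} : P ∈ Grid n ↔ (1 ≤ P.1 ∧ P.1 ≤ n) ∧ (1 ≤ P.2 ∧ P.2 ≤ n) := by
  unfold Grid
  rw [Finset.mem_product, Finset.mem_Icc, Finset.mem_Icc]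

theorem card_Grid (n : ℕ) : (Grid n).card = n * n := by
  unfold Grid
  rw [Finset.card_product, Int.card_Icc]
  simp

theorem dom_grid (n : ℕ) : IsDom n (Grid n) := ⟨Finset.Subset.refl _, fun _ h h' => absurd h h'⟩

theorem gamma_le {n : ℕ} {S : Finset (ℤ × ℤ)} (h : IsDom n S) : gamma n ≤ S.card :=
  Nat.sInf_le ⟨S, h, rfl⟩

theorem exists_gamma (n : ℕ) : ∃ S, IsDom n S ∧ S.card = gamma n := by
  have h : {k | ∃ S, IsDom n S ∧ S.card = k}.Nonempty := ⟨_, Grid n, dom_grid n, rfl⟩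
  exact Nat.sInf_mem h

end Pool.Agent.helper3.GDS
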