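import Pool.Agent.helper3.GDS.Defs

/-!
# A geometric dominating set with `O(n^(2/3))` points
-/

set_option autoImplicit false

namespace Pool.Agent.helper3.GDS

open Finset

/-- Thue's lemma -/
theorem thue {p K : ℕ} (hp : 0 < p) (hK : p < K * K) (x y : ℤ) :
    ∃ a b : ℤ, ¬ (a = 0 ∧ b = 0) ∧ |a| < K ∧ |b| < K ∧ (p : ℤ) ∣ b * x - a * y := by
  haveI : NeZero p := ⟨hp.ne'⟩
  have hc : Fintype.card (ZMod p) < Fintype.card (Fin K × Fin K) := by
    rw [ZMod.card, Fintype.card_prod, Fintype.card_fin]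
    exact hK
  obtain ⟨u, v, huv, he⟩ := Fintype.exists_ne_map_eq_of_card_lt
    (fun u : Fin K × Fin K => (((u.2 : ℕ) : ℤ) * x - ((u.1 : ℕ) : ℤ) * y : ZMod p)) hc
  refine ⟨(u.1 : ℕ) - (v.1 : ℕ), (u.2 : ℕ) - (v.2 : ℕ), ?_, ?_, ?_, ?_⟩
  · rintro ⟨h1, h2⟩
    refine huv (Prod.ext (Fin.ext ?_) (Fin.ext ?_))
    · omega
    · omega
  · have h1 := u.1.2
    have h2 := v.1.2
    rw [abs_lt]
    constructor <;> omega
  · have h1 := u.2.2
    have h2 := v.2.2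
    rw [abs_lt]
    constructor <;> omega
  · rw [← ZMod.intCast_zmod_eq_zero_iff_dvd]
    push_cast
    have he' := sub_eq_zero.2 he
    push_cast at he'
    rw [← he']
    ring

/-- the points of `p ℤ²` on a line of direction `(a, b)` -/
theorem residue {p : ℕ} (hp : p.Prime) {a b x y : ℤ} (h : (p : ℤ) ∣ b * x - a * y)
    (hab : ¬ ((p : ℤ) ∣ a ∧ (p : ℤ) ∣ b)) :
    ∃ r : ℤ, ∀ s : ℤ, (p : ℤ) ∣ s - r → (p : ℤ) ∣ x + s * a ∧ (p : ℤ) ∣ y + s * b := by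
  have hpp : Prime (p : ℤ) := Nat.prime_iff_prime_int.1 hp
  have key : ∀ a b x y : ℤ, (p : ℤ) ∣ b * x - a * y → ¬ (p : ℤ) ∣ a →
      ∃ r : ℤ, ∀ s : ℤ, (p : ℤ) ∣ s - r → (p : ℤ) ∣ x + s * a ∧ (p : ℤ) ∣ y + s * b := by
    intro a b x y h ha
    obtain ⟨u, v, huv⟩ := (hpp.irreducible.coprime_iff_not_dvd.2 ha)
    refine ⟨-(x * v), fun s hs => ?_⟩
    have h1 : (p : ℤ) ∣ x + s * a := by
      have e : x + s * a = (s - -(x * v)) * a + p * (x * u) := by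
        have e1 : (s - -(x * v)) * a + p * (x * u) = s * a + x * (u * p + v * a) := by ring
        rw [e1, huv]
        ring
      rw [e]
      exact dvd_add (hs.mul_right a) (dvd_mul_right _ _)
    refine ⟨h1, ?_⟩
    have h2 : (p : ℤ) ∣ a * (y + s * b) := by
      have e : a * (y + s * b) = b * (x + s * a) - (b * x - a * y) := by ring
      rw [e]
      exact dvd_sub (h1.mul_left b) h
    exact (hpp.dvd_or_dvd h2).resolve_left ha
  by_cases ha : (p : ℤ) ∣ a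
  · have hb : ¬ (p : ℤ) ∣ b := fun hb => hab ⟨ha, hb⟩
    have h' : (p : ℤ) ∣ a * y - b * x := by
      have := (dvd_neg (a := (p : ℤ))).2 h
      rwa [neg_sub] at this
    obtain ⟨r, hr⟩ := key b a y x h' hb
    exact ⟨r, fun s hs => (hr s hs).symm⟩
  · exact key a b x y h ha

/-- the dilated grid -/
noncomputable def L (p m : ℕ) : Finset (ℤ × ℤ) :=
  (range (m + 1) ×ˢ range (m + 1)).image fun u : ℕ × ℕ => ((p : ℤ) * u.1, (p : ℤ) * u.2)

theorem card_L (p m : ℕ) : (L p m).card ≤ (m + 1) * (m + 1) := by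
  unfold L
  refine card_image_le.trans ?_
  rw [card_product, card_range]

theorem mem_L {p m : ℕ} (hp : 0 < p) {x y : ℤ} (hx : 0 ≤ x) (hx' : x < p * m + p) (hy : 0 ≤ y)
    (hy' : y < p * m + p) (h1 : (p : ℤ) ∣ x) (h2 : (p : ℤ) ∣ y) : (x, y) ∈ L p m := by
  have key : ∀ x : ℤ, 0 ≤ x → x < p * m + p → (p : ℤ) ∣ x → ∃ i ∈ range (m + 1), (p : ℤ) * (i : ℕ) = x := by
    rintro x hx hx' ⟨c, rfl⟩
    have hp' : (0 : ℤ) < p := by exact_mod_cast hp
    have hc : 0 ≤ c := nonneg_of_mul_nonneg_right hx hp'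
    have hc' : c < m + 1 := by
      have : (p : ℤ) * c < p * (m + 1) := by linarith
      exact lt_of_mul_lt_mul_left this hp'.le
    refine ⟨c.toNat, mem_range.2 (by omega), ?_⟩
    rw [Int.toNat_of_nonneg hc]
  obtain ⟨i, hi, rfl⟩ := key x hx hx' h1
  obtain ⟨j, hj, rfl⟩ := key y hy hy' h2
  unfold L
  exact mem_image.2 ⟨(i, j), mem_product.2 ⟨hi, hj⟩, rfl⟩

theorem L_sub {p m : ℕ} {P : ℤ × ℤ} (h : P ∈ L p m) : (0 ≤ P.1 ∧ P.1 ≤ p * m) ∧ (0 ≤ P.2 ∧ P.2 ≤ p * m) := by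
  unfold L at h
  obtain ⟨⟨i, j⟩, hu, rfl⟩ := mem_image.1 h
  obtain ⟨hi, hj⟩ := mem_product.1 hu
  rw [mem_range] at hi hj
  simp only at hi hj
  have hi' : ((i : ℕ) : ℤ) ≤ m := by exact_mod_cast Nat.le_of_lt_succ hi
  have hj' : ((j : ℕ) : ℤ) ≤ m := by exact_mod_cast Nat.le_of_lt_succ hj
  refine ⟨⟨by positivity, ?_⟩, by positivity, ?_⟩
  · exact mul_le_mul_of_nonneg_left hi' (by positivity)
  · exact mul_le_mul_of_nonneg_left hj' (by positivity)

/-- two points of the dilated grid on the line through `(x, y)` of direction `(a, b)` -/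
theorem two_points {p m : ℕ} (hp : 0 < p) {a b x y r c : ℤ} (hab : ¬ (a = 0 ∧ b = 0))
    (hr : ∀ s : ℤ, (p : ℤ) ∣ s - r → (p : ℤ) ∣ x + s * a ∧ (p : ℤ) ∣ y + s * b)
    (hin : ∀ s : ℤ, c ≤ s → s < c + 2 * p →
      (0 ≤ x + s * a ∧ x + s * a < p * m + p) ∧ (0 ≤ y + s * b ∧ y + s * b < p * m + p)) :
    ∃ Q ∈ L p m, ∃ R ∈ L p m, Q ≠ R ∧ Coll (x, y) Q R := by
  have hp' : (0 : ℤ) < p := by exact_mod_cast hp
  have e1 : c ≤ c + (r - c) % p := by have := Int.emod_nonneg (r - c) hp'.ne'; linarith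
  have e2 : c + (r - c) % p < c + p := by have := Int.emod_lt_of_pos (r - c) hp'; linarith
  have e3 : (p : ℤ) ∣ c + (r - c) % p - r := by
    have h1 := Int.emod_add_mul_ediv (r - c) p
    refine ⟨-((r - c) / p), ?_⟩
    linarith
  set s := c + (r - c) % p with hs
  have e4 : (p : ℤ) ∣ s + p - r := by
    have : s + p - r = (s - r) + p := by ring
    rw [this]
    exact dvd_add e3 (dvd_refl _)
  obtain ⟨i1, i2⟩ := hin s e1 (by linarith)
  obtain ⟨j1, j2⟩ := hin (s + p) (by linarith) (by linarith)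
  obtain ⟨d1, d2⟩ := hr s e3
  obtain ⟨f1, f2⟩ := hr (s + p) e4
  refine ⟨(x + s * a, y + s * b), mem_L hp i1.1 i1.2 i2.1 i2.2 d1 d2,
    (x + (s + p) * a, y + (s + p) * b), mem_L hp j1.1 j1.2 j2.1 j2.2 f1 f2, ?_, ?_⟩
  · intro h
    rw [Prod.mk.injEq] at h
    apply hab
    constructor
    · have : (p : ℤ) * a = 0 := by linarith [h.1]
      exact (mul_eq_zero.1 this).resolve_left hp'.ne'
    · have : (p : ℤ) * b = 0 := by linarith [h.2]
      exact (mul_eq_zero.1 this).resolve_left hp'.ne'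
  · unfold Coll
    simp only
    ring

/-- **the main lemma** -/
theorem cover {n p K m : ℕ} (hp : p.Prime) (hK : p < K * K) (hKp : K ≤ p) (h8 : 8 * p * K ≤ n)
    (hm : n < p * m + p) {x y : ℤ} (hx : 0 ≤ x) (hy : 0 ≤ y) (hx2 : 2 * x ≤ n) (hy2 : 2 * y ≤ n)
    (hfar : (n : ℤ) < 4 * x ∨ (n : ℤ) < 4 * y) :
    ∃ Q ∈ L p m, ∃ R ∈ L p m, Q ≠ R ∧ Coll (x, y) Q R := by
  have hp0 : 0 < p := hp.pos
  obtain ⟨a, b, hab, ha, hb, hd⟩ := thue hp0 hK x y
  -- the sign of `a`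
  obtain ⟨a, b, hab, ha, hb, hd, ha0⟩ : ∃ a b : ℤ, ¬ (a = 0 ∧ b = 0) ∧ |a| < K ∧ |b| < K ∧
      (p : ℤ) ∣ b * x - a * y ∧ 0 ≤ a := by
    rcases le_or_gt 0 a with h | h
    · exact ⟨a, b, hab, ha, hb, hd, h⟩
    · refine ⟨-a, -b, ?_, by rwa [abs_neg], by rwa [abs_neg], ?_, by linarith⟩
      · rintro ⟨h1, h2⟩
        exact hab ⟨by linarith, by linarith⟩
      · have := (dvd_neg (a := (p : ℤ))).2 hd
        have e : -b * x - -a * y = -(b * x - a * y) := by ring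
        rwa [e]
  have hKp' : (K : ℤ) ≤ p := by exact_mod_cast hKp
  have hz : ∀ c : ℤ, |c| < K → (p : ℤ) ∣ c → c = 0 := fun c hc hd =>
    Int.eq_zero_of_abs_lt_dvd hd (hc.trans_le hKp')
  obtain ⟨r, hr⟩ := residue hp hd fun h => hab ⟨hz a ha h.1, hz b hb h.2⟩
  have h8' : (8 * p * K : ℤ) ≤ n := by exact_mod_cast h8
  have hm' : (n : ℤ) < p * m + p := by exact_mod_cast hm
  have hs : ∀ s c : ℤ, |s| ≤ 2 * p → |c| < K → 4 * |s * c| ≤ n := by
    intro s c hs hc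
    have h1 : |s| * |c| ≤ (2 * p) * K := mul_le_mul hs hc.le (abs_nonneg _) (by positivity)
    rw [abs_mul]
    linarith
  rcases le_or_gt 0 b with hb0 | hb0
  · refine two_points (c := 0) hp0 hab hr fun s h1 h2 => ?_
    have hsp : |s| ≤ 2 * p := by rw [abs_of_nonneg h1]; linarith
    have k1 := hs s a hsp ha
    have k2 := hs s b hsp hb
    have k3 : 0 ≤ s * a := mul_nonneg h1 ha0
    have k4 : 0 ≤ s * b := mul_nonneg h1 hb0
    rw [abs_of_nonneg k3] at k1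
    rw [abs_of_nonneg k4] at k2
    exact ⟨⟨by linarith, by linarith⟩, by linarith, by linarith⟩
  · rcases hfar with hf | hf
    · refine two_points (c := -(2 * p) + 1) hp0 hab hr fun s h1 h2 => ?_
      have h2' : s ≤ 0 := by linarith
      have hsp : |s| ≤ 2 * p := by rw [abs_of_nonpos h2']; linarith
      have k1 := hs s a hsp ha
      have k2 := hs s b hsp hb
      have k3 : s * a ≤ 0 := mul_nonpos_of_nonpos_of_nonneg h2' ha0
      have k4 : 0 ≤ s * b := mul_nonneg_of_nonpos_of_nonpos h2' hb0.le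
      rw [abs_of_nonpos k3] at k1
      rw [abs_of_nonneg k4] at k2
      exact ⟨⟨by linarith, by linarith⟩, by linarith, by linarith⟩
    · refine two_points (c := 0) hp0 hab hr fun s h1 h2 => ?_
      have hsp : |s| ≤ 2 * p := by rw [abs_of_nonneg h1]; linarith
      have k1 := hs s a hsp ha
      have k2 := hs s b hsp hb
      have k3 : 0 ≤ s * a := mul_nonneg h1 ha0
      have k4 : s * b ≤ 0 := mul_nonpos_of_nonneg_of_nonpos h1 hb0.le
      rw [abs_of_nonneg k3] at k1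
      rw [abs_of_nonpos k4] at k2
      exact ⟨⟨by linarith, by linarith⟩, by linarith, by linarith⟩

/-- `S` lies in `[0, n]²` and covers the quadrant `[0, n/2]²` -/
def Quad (n : ℕ) (S : Finset (ℤ × ℤ)) : Prop :=
  (∀ P ∈ S, (0 ≤ P.1 ∧ P.1 ≤ n) ∧ (0 ≤ P.2 ∧ P.2 ≤ n)) ∧
    ∀ x y : ℤ, 0 ≤ x → 0 ≤ y → 2 * x ≤ n → 2 * y ≤ n →
      (x, y) ∈ S ∨ ∃ Q ∈ S, ∃ R ∈ S, Q ≠ R ∧ Coll (x, y) Q R

theorem quad_full (n : ℕ) : ∃ S, Quad n S ∧ S.card ≤ (n + 1) * (n + 1) := by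
  refine ⟨Icc (0 : ℤ) n ×ˢ Icc (0 : ℤ) n, ⟨?_, ?_⟩, ?_⟩
  · intro P hP
    rw [mem_product, mem_Icc, mem_Icc] at hP
    exact hP
  · intro x y hx hy hx2 hy2
    left
    rw [mem_product, mem_Icc, mem_Icc]
    exact ⟨⟨hx, by linarith⟩, hy, by linarith⟩
  · rw [card_product, Int.card_Icc]
    have : ((n : ℤ) + 1 - 0).toNat = n + 1 := by omega
    rw [this]

theorem quad_step {n p K : ℕ} (hp : p.Prime) (hK : p < K * K) (hKp : K ≤ p) (h8 : 8 * p * K ≤ n)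
    {S : Finset (ℤ × ℤ)} (hS : Quad (n / 2) S) : Quad n (S ∪ L p (n / p)) := by
  have hp0 : 0 < p := hp.pos
  have h1 : p * (n / p) ≤ n := Nat.mul_div_le n p
  have h2 : n < p * (n / p) + p := by
    have := Nat.lt_mul_div_succ n hp0
    rwa [mul_add, mul_one] at this
  constructor
  · intro P hP
    rcases mem_union.1 hP with hP | hP
    · have h3 := hS.1 P hP
      omega
    · have h3 := L_sub hP
      have h1' : (p : ℤ) * ((n / p : ℕ) : ℤ) ≤ n := by exact_mod_cast h1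
      exact ⟨⟨h3.1.1, h3.1.2.trans h1'⟩, h3.2.1, h3.2.2.trans h1'⟩
  · intro x y hx hy hx2 hy2
    by_cases hfar : (n : ℤ) < 4 * x ∨ (n : ℤ) < 4 * y
    · right
      obtain ⟨Q, hQ, R, hR, h⟩ := cover hp hK hKp h8 h2 hx hy hx2 hy2 hfar
      exact ⟨Q, mem_union_right _ hQ, R, mem_union_right _ hR, h⟩
    · rcases hS.2 x y hx hy (by omega) (by omega) with h | ⟨Q, hQ, R, hR, h⟩
      · exact Or.inl (mem_union_left _ h)
      · exact Or.inr ⟨Q, mem_union_left _ hQ, R, mem_union_left _ hR, h⟩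

/-- the parameters -/
theorem params (n : ℕ) (hn : 64 ≤ n) : ∃ p K : ℕ, p.Prime ∧ p < K * K ∧ K ≤ p ∧ 8 * p * K ≤ n ∧
    8 * K ^ 3 ≤ n ∧ n / p + 1 ≤ 55 * K := by
  have hex : ∀ n : ℕ, ∃ K : ℕ, 8 * K ^ 3 ≤ n ∧ n < 8 * (K + 1) ^ 3 := by
    intro n
    induction n with
    | zero => exact ⟨0, by norm_num, by norm_num⟩
    | succ n ih =>
      obtain ⟨K, h1, h2⟩ := ih
      rcases Nat.lt_or_ge (n + 1) (8 * (K + 1) ^ 3) with h | h
      · exact ⟨K, by omega, h⟩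
      · refine ⟨K + 1, h, ?_⟩
        have h3 : n + 1 = 8 * (K + 1) ^ 3 := by omega
        rw [h3]
        exact Nat.mul_lt_mul_of_pos_left (Nat.pow_lt_pow_left (Nat.lt_succ_self _) (by norm_num))
          (by norm_num)
  obtain ⟨K, h1, h2⟩ := hex n
  have hK2 : 2 ≤ K := by
    by_contra hcon
    have h3 : K + 1 ≤ 2 := by omega
    have h4 : (K + 1) ^ 3 ≤ 2 ^ 3 := Nat.pow_le_pow_left h3 3
    omega
  have hKK : 4 ≤ K * K := Nat.mul_le_mul hK2 hK2
  obtain ⟨p, hp, hp1, hp2⟩ := Nat.exists_prime_lt_and_le_two_mul ((K * K - 1) / 2) (by omega)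
  have hpK : K * K ≤ 2 * p := by omega
  have hpK2 : p < K * K := by omega
  refine ⟨p, K, hp, hpK2, ?_, ?_, h1, ?_⟩
  · nlinarith
  · calc 8 * p * K ≤ 8 * (K * K) * K := Nat.mul_le_mul_right _ (Nat.mul_le_mul_left _ hpK2.le)
      _ = 8 * K ^ 3 := by ring
      _ ≤ n := h1
  · have h3 : 8 * (K + 1) ^ 3 ≤ 27 * K ^ 3 := by
      obtain ⟨d, rfl⟩ := Nat.exists_eq_add_of_le hK2
      nlinarith [Nat.zero_le d, Nat.zero_le (d * d), Nat.zero_le (d * d * d)]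
    have h4 : p * (n / p) ≤ n := Nat.mul_div_le n p
    have h5 : K * K * (n / p) ≤ 2 * n := by
      calc K * K * (n / p) ≤ 2 * p * (n / p) := Nat.mul_le_mul_right _ hpK
        _ = 2 * (p * (n / p)) := by ring
        _ ≤ 2 * n := Nat.mul_le_mul_left _ h4
    have h6 : K * K * (n / p) < K * K * (54 * K) := by
      calc K * K * (n / p) ≤ 2 * n := h5
        _ < 2 * (27 * K ^ 3) := by omega
        _ = K * K * (54 * K) := by ring
    have h7 : n / p < 54 * K := lt_of_mul_lt_mul_left h6 (Nat.zero_le _)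
    omega

end Pool.Agent.helper3.GDS
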