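import Pool.Agent.helper3.GDS.Upper

/-!
# The upper bound `γ(n) ≤ 16384 n^(2/3)`
-/

set_option autoImplicit false

namespace Pool.Agent.helper3.GDS

open Finset

/-- `n ^ (2/3)` -/
noncomputable def f (n : ℕ) : ℝ := (n : ℝ) ^ (2 / 3 : ℝ)

theorem f_mono {m n : ℕ} (h : m ≤ n) : f m ≤ f n :=
  Real.rpow_le_rpow (Nat.cast_nonneg _) (Nat.cast_le.2 h) (by norm_num)

theorem f_one_le {n : ℕ} (h : 1 ≤ n) : 1 ≤ f n :=
  Real.one_le_rpow (by exact_mod_cast h) (by norm_num)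

theorem f_cube (n : ℕ) : f n ^ 3 = (n : ℝ) ^ 2 := by
  unfold f
  rw [← Real.rpow_natCast, ← Real.rpow_mul (Nat.cast_nonneg _), ← Real.rpow_natCast]
  norm_num

theorem f_nonneg (n : ℕ) : 0 ≤ f n := Real.rpow_nonneg (Nat.cast_nonneg _) _

/-- comparison by cubes -/
theorem le_of_cube {a b : ℝ} (hb : 0 ≤ b) (h : a ^ 3 ≤ b ^ 3) : a ≤ b :=
  le_of_pow_le_pow_left₀ (by norm_num) hb h

theorem f_half (n : ℕ) : f (n / 2) ≤ 2 / 3 * f n := by
  apply le_of_cube (mul_nonneg (by norm_num) (f_nonneg n))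
  rw [mul_pow, f_cube, f_cube]
  have h1 : ((n / 2 : ℕ) : ℝ) ≤ (n : ℝ) / 2 := Nat.cast_div_le
  have h2 : (0 : ℝ) ≤ ((n / 2 : ℕ) : ℝ) := Nat.cast_nonneg _
  nlinarith [sq_nonneg (n : ℝ)]

theorem sq_le_f {n K : ℕ} (h : 8 * K ^ 3 ≤ n) : 4 * (K : ℝ) ^ 2 ≤ f n := by
  apply le_of_cube (f_nonneg n)
  rw [f_cube]
  have h1 : (8 * (K : ℝ) ^ 3) ≤ n := by exact_mod_cast h
  have h2 : (0 : ℝ) ≤ 8 * (K : ℝ) ^ 3 := by positivity
  calc (4 * (K : ℝ) ^ 2) ^ 3 = (8 * (K : ℝ) ^ 3) ^ 2 := by ring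
    _ ≤ (n : ℝ) ^ 2 := pow_le_pow_left₀ h2 h1 2

theorem quad_bound (n : ℕ) (hn : 1 ≤ n) : ∃ S, Quad n S ∧ (S.card : ℝ) ≤ 4096 * f n := by
  induction n using Nat.strong_induction_on with
  | _ n ih =>
    rcases Nat.lt_or_ge n 64 with h | h
    · obtain ⟨S, hS, hc⟩ := quad_full n
      refine ⟨S, hS, ?_⟩
      have h1 : S.card ≤ 4096 := hc.trans (by nlinarith)
      have h2 : (S.card : ℝ) ≤ 4096 := by exact_mod_cast h1
      have h3 := f_one_le hn
      linarith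
    · obtain ⟨p, K, hp, h1, h2, h3, h4, h5⟩ := params n h
      obtain ⟨S, hS, hc⟩ := ih (n / 2) (by omega) (by omega)
      refine ⟨S ∪ L p (n / p), quad_step hp h1 h2 h3 hS, ?_⟩
      have h6 : ((S ∪ L p (n / p)).card : ℝ) ≤ (S.card : ℝ) + ((L p (n / p)).card : ℝ) := by
        exact_mod_cast card_union_le _ _
      have h7 : (L p (n / p)).card ≤ (55 * K) * (55 * K) :=
        (card_L _ _).trans (Nat.mul_le_mul h5 h5)
      have h8 : ((L p (n / p)).card : ℝ) ≤ (55 * K) * (55 * K) := by exact_mod_cast h7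
      have h9 := sq_le_f h4
      have h10 := f_half n
      have h11 := f_nonneg n
      calc ((S ∪ L p (n / p)).card : ℝ) ≤ (S.card : ℝ) + ((L p (n / p)).card : ℝ) := h6
        _ ≤ 4096 * f (n / 2) + (55 * K) * (55 * K) := add_le_add hc h8
        _ ≤ 4096 * (2 / 3 * f n) + 3025 / 4 * (4 * (K : ℝ) ^ 2) := by nlinarith
        _ ≤ 4096 * (2 / 3 * f n) + 3025 / 4 * f n := by nlinarith
        _ ≤ 4096 * f n := by nlinarith

/-- the four symmetries and the translation to `{1, ..., n + 1}²` -/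
def sym (n : ℕ) (e : Bool × Bool) (P : ℤ × ℤ) : ℤ × ℤ :=
  (1 + (if e.1 then (n : ℤ) - P.1 else P.1), 1 + (if e.2 then (n : ℤ) - P.2 else P.2))

theorem sym_inj {n : ℕ} {e : Bool × Bool} {P Q : ℤ × ℤ} (h : sym n e P = sym n e Q) : P = Q := by
  obtain ⟨e1, e2⟩ := e
  unfold sym at h
  rw [Prod.mk.injEq] at h
  obtain ⟨h1, h2⟩ := h
  refine Prod.ext ?_ ?_
  · cases e1 <;> simp at h1 <;> exact h1
  · cases e2 <;> simp at h2 <;> exact h2

theorem sym_coll {n : ℕ} {e : Bool × Bool} {P Q R : ℤ × ℤ} (h : Coll P Q R) :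
    Coll (sym n e P) (sym n e Q) (sym n e R) := by
  obtain ⟨e1, e2⟩ := e
  unfold Coll at h
  unfold Coll sym
  cases e1 <;> cases e2 <;> simp only [if_true, if_false, Bool.false_eq_true] <;> linarith

theorem dom_bound (n : ℕ) (hn : 1 ≤ n) : ∃ S, IsDom (n + 1) S ∧ (S.card : ℝ) ≤ 16384 * f n := by
  obtain ⟨S, hS, hc⟩ := quad_bound n hn
  refine ⟨((univ : Finset (Bool × Bool)) ×ˢ S).image (fun q => sym n q.1 q.2), ⟨?_, ?_⟩, ?_⟩
  · intro P hP
    obtain ⟨⟨e, Q⟩, hq, rfl⟩ := mem_image.1 hP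
    have h1 := hS.1 Q (mem_product.1 hq).2
    obtain ⟨e1, e2⟩ := e
    rw [mem_Grid]
    unfold sym
    push_cast
    cases e1 <;> cases e2 <;> simp only [if_true, if_false, Bool.false_eq_true] <;> omega
  · intro P hP hPS
    rw [mem_Grid] at hP
    push_cast at hP
    obtain ⟨⟨hx1, hx2⟩, hy1, hy2⟩ := hP
    -- coordinates in the quadrant
    obtain ⟨e1, x, hx, hx', hxx⟩ : ∃ (e1 : Bool) (x : ℤ), 0 ≤ x ∧ 2 * x ≤ n ∧
        1 + (if e1 then (n : ℤ) - x else x) = P.1 := by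
      rcases le_or_gt (2 * (P.1 - 1)) (n : ℤ) with h | h
      · exact ⟨false, P.1 - 1, by linarith, h, by simp⟩
      · exact ⟨true, n - (P.1 - 1), by linarith, by linarith, by simp⟩
    obtain ⟨e2, y, hy, hy', hyy⟩ : ∃ (e2 : Bool) (y : ℤ), 0 ≤ y ∧ 2 * y ≤ n ∧
        1 + (if e2 then (n : ℤ) - y else y) = P.2 := by
      rcases le_or_gt (2 * (P.2 - 1)) (n : ℤ) with h | h
      · exact ⟨false, P.2 - 1, by linarith, h, by simp⟩
      · exact ⟨true, n - (P.2 - 1), by linarith, by linarith, by simp⟩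
    have hP : sym n (e1, e2) (x, y) = P := by
      unfold sym
      exact Prod.ext hxx hyy
    rcases hS.2 x y hx hy hx' hy' with h | ⟨Q, hQ, R, hR, hQR, hcol⟩
    · exact absurd (mem_image.2 ⟨((e1, e2), (x, y)), mem_product.2 ⟨mem_univ _, h⟩, hP⟩) hPS
    · refine ⟨sym n (e1, e2) Q, mem_image.2 ⟨((e1, e2), Q), mem_product.2 ⟨mem_univ _, hQ⟩, rfl⟩,
        sym n (e1, e2) R, mem_image.2 ⟨((e1, e2), R), mem_product.2 ⟨mem_univ _, hR⟩, rfl⟩,
        fun h => hQR (sym_inj h), ?_⟩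
      rw [← hP]
      exact sym_coll hcol
  · have h1 : (((univ : Finset (Bool × Bool)) ×ˢ S).image (fun q => sym n q.1 q.2)).card ≤ 4 * S.card := by
      refine card_image_le.trans ?_
      rw [card_product]
      exact le_of_eq rfl
    have h2 : ((((univ : Finset (Bool × Bool)) ×ˢ S).image (fun q => sym n q.1 q.2)).card : ℝ) ≤
        4 * S.card := by exact_mod_cast h1
    linarith

/-- **the upper bound** -/
theorem gamma_upper (n : ℕ) (hn : 1 ≤ n) : (gamma n : ℝ) ≤ 16384 * f n := by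
  rcases Nat.lt_or_ge n 2 with h | h
  · obtain rfl : n = 1 := by omega
    have h1 : gamma 1 ≤ 1 := by
      refine (gamma_le (dom_grid 1)).trans ?_
      rw [card_Grid]
    have h2 : (gamma 1 : ℝ) ≤ 1 := by exact_mod_cast h1
    have h3 := f_one_le (le_refl 1)
    linarith
  · obtain ⟨m, rfl⟩ : ∃ m, n = m + 1 := ⟨n - 1, by omega⟩
    obtain ⟨S, hS, hc⟩ := dom_bound m (by omega)
    have h1 : (gamma (m + 1) : ℝ) ≤ S.card := by exact_mod_cast gamma_le hS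
    have h2 := f_mono (Nat.le_succ m)
    have h3 : f m ≤ f (m + 1) := h2
    linarith

end Pool.Agent.helper3.GDS
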